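import Pool.Agent.H76.SW.T

/-!
Module G1 of the board `stw_modules`.
-/

set_option autoImplicit false

namespace Pool.Agent.H33.SW

open Pool.Agent.H76.SW Relation

/-- The path on `n + 1` vertices. -/
abbrev pathG (n : ℕ) : SimpleGraph (Fin (n + 1)) :=
  torso (fun i : Fin n => i.castSucc) (fun i : Fin n => i.succ)

/-- Positions of the inner query. -/
def pos4 {P : Type} (c0 : P) (pp' : Bool → P) (i : Fin 4) : P :=
  if i = 0 ∨ i = 3 then c0 else if i = 1 then pp' false else pp' true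

/-- Positions of the outer query. -/
def pos3 {P : Type} (c0 : P) (pp : Bool → P) (i : Fin 3) : P :=
  if i = 1 then c0 else if i = 0 then pp false else pp true

/-- The facts along a path. -/
def factsP {A P Q : Type} {n : ℕ} (gs : P → Option (A × Bool) → P → Prop)
    (tr : Q → A × Bool → Q → Prop) (pos : Fin (n + 1) → P) :
    Set ((Fin (n + 1) × Q) × (Fin (n + 1) × Q)) :=
  {x | (x.1.1 = x.2.1 ∨ (pathG n).Adj x.1.1 x.2.1) ∧
    rho gs tr (pos x.1.1, x.1.2) (pos x.2.1, x.2.2)}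

theorem card_n {A : Type} {w n : ℕ} {b : Body A w} (e : Fin (n + 1) ≃ Fin b.n) : b.n = n + 1 := by
  have := Fintype.card_congr e
  simpa using this.symm

theorem pf_G1 (h1 : U_s5_lift) (h2 : U_q4_body) (h3 : U_q5_unfold) (h4 : U_d7_path)
    (_h5 : U_d9_mono) : U_g1_loop := by
  intro A P Q L _ k hk gs hs tr pos pp pp' c0 hc0 hcp bd nn δ' hδ
  obtain ⟨hW, hS, hsz, hFQ, hsat, hmain⟩ := hδ
  -- the inner query
  obtain ⟨b, e, hb, hbs, hbsz, hbw⟩ := h2 tr (Fin (3 + 1)) (factsP (n := 3) gs tr (pos4 c0 pp')) 1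
    (fun _ => 1) (fun _ => 2)
  have hbn : b.n = 4 := card_n (n := 3) e
  rw [Fintype.card_fin] at hbsz
  have hγW : TreeWidthLE b.graph k := by
    refine hbw (pathG 3) k ?_ ?_ (h4 hk)
    · intro x s y s' hxy hne
      rcases hxy.1 with h | h
      · exact absurd h hne
      · exact h
    · intro j _
      refine ⟨by decide, 1, Or.inl ⟨by decide, by decide⟩⟩
  have hγF : IsFQ tr (4 + nn) (RQ.cq 1 b (fun _ => δ') (e 0) (e 3)) :=
    (h3 tr b _ _ _ hb (fun _ => δ') nn (fun _ => hFQ) (4 + nn) (by omega)).1 _ _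
  have hγsz : (RQ.cq 1 b (fun _ => δ') (e 0) (e 3)).size ≤
      1 + bsz 4 (Fintype.card Q) 1 + bd := by
    change 1 + b.size + ∑ _j : Fin 1, δ'.size ≤ _
    rw [Fin.sum_univ_one]
    have : bsz (3 + 1) (Fintype.card Q) 1 = bsz 4 (Fintype.card Q) 1 := rfl
    omega
  have hγsat : (RQ.cq 1 b (fun _ => δ') (e 0) (e 3)).Sat (canon gs) (cl gs c0) (cl gs c0) := by
    refine ⟨fun i => cl gs (pos4 c0 pp' (e.symm i)), ?_, ?_, ?_⟩
    · rw [hb]
      refine ⟨?_, ?_⟩
      · rintro _ ⟨y, hy, rfl⟩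
        simp only [Equiv.symm_apply_apply]
        exact (h1 gs hs tr _ _ _ _).1 hy.2
      · intro j
        simp only [Equiv.symm_apply_apply]
        exact hsat
    · simp only [Equiv.symm_apply_apply]; rfl
    · simp only [Equiv.symm_apply_apply]; rfl
  -- the outer query
  obtain ⟨b3, e3, hb3, hbs3, hbsz3, hbw3⟩ := h2 tr (Fin (2 + 1))
    (factsP (n := 2) gs tr (pos3 c0 pp)) 1 (fun _ => 1) (fun _ => 1)
  have hbn3 : b3.n = 3 := card_n (n := 2) e3
  rw [Fintype.card_fin] at hbsz3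
  refine ⟨RQ.cq 1 b3 (fun _ => RQ.cq 1 b (fun _ => δ') (e 0) (e 3)) (e3 0) (e3 2),
    ?_, ?_, ?_, ?_, ?_, ?_⟩
  · refine ⟨hbw3 (pathG 2) k ?_ ?_ (h4 hk), fun _ => ⟨hγW, fun _ => hW⟩⟩
    · intro x s y s' hxy hne
      rcases hxy.1 with h | h
      · exact absurd h hne
      · exact h
    · intro j hj
      exact absurd rfl hj
  · exact ⟨hbs3, fun _ => ⟨hbs, fun _ => hS⟩⟩
  · change 1 + b3.size + ∑ _j : Fin 1, (RQ.cq 1 b (fun _ => δ') (e 0) (e 3)).size ≤ _
    rw [Fin.sum_univ_one]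
    have : bsz (2 + 1) (Fintype.card Q) 1 = bsz 3 (Fintype.card Q) 1 := rfl
    omega
  · exact (h3 tr b3 _ _ _ hb3 (fun _ => RQ.cq 1 b (fun _ => δ') (e 0) (e 3)) (4 + nn)
      (fun _ => hγF) (7 + nn) (by omega)).1 _ _
  · refine ⟨fun i => cl gs (pos3 c0 pp (e3.symm i)), ?_, ?_, ?_⟩
    · rw [hb3]
      refine ⟨?_, ?_⟩
      · rintro _ ⟨y, hy, rfl⟩
        simp only [Equiv.symm_apply_apply]
        exact (h1 gs hs tr _ _ _ _).1 hy.2
      · intro j
        simp only [Equiv.symm_apply_apply]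
        exact hγsat
    · simp only [Equiv.symm_apply_apply]; rfl
    · simp only [Equiv.symm_apply_apply]; rfl
  · intro V E hh hsatE hRP
    obtain ⟨μ, hμ, hμ1, hμ2⟩ := hsatE
    rw [hb3] at hμ
    obtain ⟨hfacts, hR⟩ := hμ
    obtain ⟨μ', hμ', hμ'1, hμ'2⟩ := hR 0
    rw [hb] at hμ'
    obtain ⟨hfacts', hR'⟩ := hμ'
    have hfact : ∀ x s y s', ((x, s), (y, s')) ∈ factsP (n := 2) gs tr (pos3 c0 pp) →
        Reach E tr (μ (e3 x), s) (μ (e3 y), s') := by
      intro x s y s' hxy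
      exact hfacts _ ⟨_, hxy, rfl⟩
    have hfact' : ∀ x s y s', ((x, s), (y, s')) ∈ factsP (n := 3) gs tr (pos4 c0 pp') →
        Reach E tr (μ' (e x), s) (μ' (e y), s') := by
      intro x s y s' hxy
      exact hfacts' _ ⟨_, hxy, rfl⟩
    have e12 : (pathG 3).Adj 1 2 := ⟨by decide, 1, Or.inl ⟨by decide, by decide⟩⟩
    have e01 : (pathG 3).Adj 0 1 := ⟨by decide, 0, Or.inl ⟨by decide, by decide⟩⟩
    have e23 : (pathG 3).Adj 2 3 := ⟨by decide, 2, Or.inl ⟨by decide, by decide⟩⟩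
    have f01 : (pathG 2).Adj 0 1 := ⟨by decide, 0, Or.inl ⟨by decide, by decide⟩⟩
    have f12 : (pathG 2).Adj 1 2 := ⟨by decide, 1, Or.inl ⟨by decide, by decide⟩⟩
    -- the inner ports
    have hRP' : RP (rho gs tr) pp' E tr (fun c => μ' (e (if c then 2 else 1))) := by
      intro a a' s s' hr
      cases a <;> cases a'
      · exact hfact' 1 s 1 s' ⟨Or.inl rfl, hr⟩
      · exact hfact' 1 s 2 s' ⟨Or.inr e12, hr⟩
      · exact hfact' 2 s 1 s' ⟨Or.inr e12.symm, hr⟩
      · exact hfact' 2 s 2 s' ⟨Or.inl rfl, hr⟩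
    obtain ⟨ν, hν⟩ := hmain V E (fun c => μ' (e (if c then 2 else 1))) (hR' 0) hRP'
    -- between the inner ports and the loop variable
    have hin : ∀ c s s', rho gs tr (pp' c, s) (c0, s') →
        Reach E tr (μ' (e (if c then 2 else 1)), s) (μ (e3 1), s') := by
      intro c s s' hr
      cases c
      · have := hfact' 1 s 0 s' ⟨Or.inr e01.symm, hr⟩
        rw [hμ'1] at this
        exact this
      · have := hfact' 2 s 3 s' ⟨Or.inr e23, hr⟩
        rw [hμ'2] at this
        exact this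
    have hout : ∀ c s s', rho gs tr (c0, s) (pp' c, s') →
        Reach E tr (μ (e3 1), s) (μ' (e (if c then 2 else 1)), s') := by
      intro c s s' hr
      cases c
      · have := hfact' 0 s 1 s' ⟨Or.inr e01, hr⟩
        rw [hμ'1] at this
        exact this
      · have := hfact' 3 s 2 s' ⟨Or.inr e23.symm, hr⟩
        rw [hμ'2] at this
        exact this
    -- between the loop variable and the outer ports
    have hin3 : ∀ c s s', rho gs tr (pp c, s) (c0, s') →
        Reach E tr (hh c, s) (μ (e3 1), s') := by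
      intro c s s' hr
      cases c
      · have := hfact 0 s 1 s' ⟨Or.inr f01, hr⟩
        rw [hμ1] at this
        exact this
      · have := hfact 2 s 1 s' ⟨Or.inr f12.symm, hr⟩
        rw [hμ2] at this
        exact this
    have hout3 : ∀ c s s', rho gs tr (c0, s) (pp c, s') →
        Reach E tr (μ (e3 1), s) (hh c, s') := by
      intro c s s' hr
      cases c
      · have := hfact 1 s 0 s' ⟨Or.inr f01.symm, hr⟩
        rw [hμ1] at this
        exact this
      · have := hfact 1 s 2 s' ⟨Or.inr f12, hr⟩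
        rw [hμ2] at this
        exact this
    refine ⟨ν, ?_⟩
    rintro (a | c) (a' | c') s s' hr
    · exact hν (Sum.inl a) (Sum.inl a') s s' hr
    · obtain ⟨_u, s1, hr1, hr2⟩ := (hcp a c').1 s s' hr
      obtain ⟨d, s2, hr3, hr4⟩ := (hc0 a).1 s s1 hr1
      exact ((hν (Sum.inl a) (Sum.inr d) s s2 hr3).trans (hin d s2 s1 hr4)).trans
        (hout3 c' s1 s' hr2)
    · obtain ⟨_u, s1, hr1, hr2⟩ := (hcp a' c).2 s s' hr
      obtain ⟨d, s2, hr3, hr4⟩ := (hc0 a').2 s1 s' hr2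
      exact ((hin3 c s s1 hr1).trans (hout d s1 s2 hr3)).trans
        (hν (Sum.inr d) (Sum.inl a') s2 s' hr4)
    · exact hRP c c' s s' hr

end Pool.Agent.H33.SW
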